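import Pool.Agent.H97.LA.Targets
import Pool.Agent.H96.XS.RED

/-!
MP_c62aed_lc, board la_modules, row EXTD: extension of a vector by zero.
-/

set_option autoImplicit false

namespace Pool.Agent.H42.LA

open Finset Pool.Agent.H60.SYM Pool.Agent.H42.XS Pool.Agent.H97.LA

theorem pf_EXTD : T_EXTD := by
  classical
  intro M N n d e h hh
  refine ⟨fun y => ⟨?_, ?_⟩, fun ρ T j => ?_⟩
  · exact Pool.Agent.H96.XS.comb_extend e h hh y
  · exact Pool.Agent.H96.XS.wt_extend h hh y
  · unfold Pool.Agent.H97.LA.nw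
    rw [← card_map ⟨h, hh⟩]
    congr 1
    ext x
    simp only [mem_filter, mem_univ, true_and, mem_map, Function.Embedding.coeFn_mk]
    constructor
    · rintro ⟨h1, h2⟩
      have hx : ∃ i, h i = x := by
        by_contra hcon
        rw [Function.extend_apply' _ _ _ hcon] at h1
        exact h1 rfl
      obtain ⟨i, rfl⟩ := hx
      refine ⟨i, ⟨?_, fun j' hj' => ?_⟩, rfl⟩
      · rwa [hh.extend_apply] at h1
      · have := h2 j' hj'
        rwa [hh.extend_apply] at this
    · rintro ⟨i, ⟨h1, h2⟩, rfl⟩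
      refine ⟨?_, fun j' hj' => ?_⟩
      · rwa [hh.extend_apply]
      · rw [hh.extend_apply]
        exact h2 j' hj'

end Pool.Agent.H42.LA
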