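import Pool.Agent.H42.XS.Targets

/-!
MP_c62aed_lc, circuits with linear algebra gates: the walk lemma.
-/

set_option autoImplicit false

namespace Pool.Agent.H42.LA

open Finset Pool.Agent.H60.SYM

section

variable {M n : ℕ} (A : (Fin M → ZMod 2) → (Fin n → ZMod 2)) (s₀ : ℕ)
  (W : Submodule (ZMod 2) (Fin n → ZMod 2)) (Y : Set (Fin n → ZMod 2))

/-- walks in `Y` modulo `W` with steps of weight less than `s₀` -/
inductive Walk : (Fin n → ZMod 2) → (Fin n → ZMod 2) → (Fin M → ZMod 2) → Prop
  | refl (u : Fin n → ZMod 2) (hu : u ∈ Y) : Walk u u 0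
  | step (u v v' : Fin n → ZMod 2) (T C : Fin M → ZMod 2) (h : Walk u v T) (hv : v' ∈ Y)
      (hC : wt C < s₀) (hW : v' + v + A C ∈ W) : Walk u v' (T + C)

variable {A s₀ W Y}

theorem add_self (x : Fin n → ZMod 2) : x + x = 0 := by
  funext i
  exact CharTwo.add_self_eq_zero _

theorem Walk.mem {u v : Fin n → ZMod 2} {T : Fin M → ZMod 2} (h : Walk A s₀ W Y u v T) :
    u ∈ Y ∧ v ∈ Y := by
  induction h with
  | refl hu => exact ⟨hu, hu⟩
  | step v v' T C h hv hC hW ih => exact ⟨ih.1, hv⟩

theorem Walk.diff (hA : ∀ x y, A (x + y) = A x + A y) (hA0 : A 0 = 0) {u v : Fin n → ZMod 2}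
    {T : Fin M → ZMod 2} (h : Walk A s₀ W Y u v T) : v + u + A T ∈ W := by
  induction h with
  | refl hu =>
    rw [add_self, hA0, add_zero]
    exact W.zero_mem
  | step v v' T C h hv hC hW ih =>
    have := W.add_mem hW ih
    have e : v' + v + A C + (v + u + A T) = v' + u + A (T + C) + (v + v) := by
      rw [hA]
      abel
    rw [e, add_self, add_zero] at this
    exact this

theorem Walk.trans {u v x : Fin n → ZMod 2} {T T' : Fin M → ZMod 2} (h : Walk A s₀ W Y u v T)
    (h' : Walk A s₀ W Y v x T') : Walk A s₀ W Y u x (T + T') := by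
  induction h' with
  | refl hv =>
    rw [add_zero]
    exact h
  | step x x' T' C _ hx hC hW ih =>
    rw [← add_assoc]
    exact Walk.step _ _ _ _ _ ih hx hC hW

theorem Walk.one {u v : Fin n → ZMod 2} {C : Fin M → ZMod 2} (hu : u ∈ Y) (hv : v ∈ Y)
    (hC : wt C < s₀) (hW : v + u + A C ∈ W) : Walk A s₀ W Y u v C := by
  have := Walk.step _ _ _ _ _ (Walk.refl (A := A) (s₀ := s₀) (W := W) u hu) hv hC hW
  rwa [zero_add] at this

theorem Walk.symm {u v : Fin n → ZMod 2} {T : Fin M → ZMod 2} (h : Walk A s₀ W Y u v T) :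
    Walk A s₀ W Y v u T := by
  induction h with
  | refl hu => exact Walk.refl u hu
  | step v v' T C h hv hC hW ih =>
    have h1 : Walk A s₀ W Y v' v C := Walk.one hv h.mem.2 hC (by rwa [add_comm v v'])
    rw [add_comm]
    exact h1.trans ih

end

theorem wt_add_le {M : ℕ} (y y' : Fin M → ZMod 2) : wt (y + y') ≤ wt y + wt y' := by
  classical
  unfold wt
  refine le_trans (card_le_card ?_) (card_union_le _ _)
  intro i hi
  simp only [mem_filter, mem_univ, true_and, mem_union, Pi.add_apply] at hi ⊢
  by_contra hcon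
  push Not at hcon
  exact hi (by rw [hcon.1, hcon.2, add_zero])

/-- the number of new rows of the `j`-th vector -/
noncomputable def nw {M : ℕ} (sel : ℕ → Fin M → ZMod 2) (j : ℕ) (T : Fin M → ZMod 2) : ℕ := by
  classical
  exact (univ.filter fun i => T i ≠ 0 ∧ ∀ j' < j, sel j' i = 0).card

/-- the number of rows that are used -/
noncomputable def us {M : ℕ} (sel : ℕ → Fin M → ZMod 2) (k : ℕ) : ℕ := by
  classical
  exact (univ.filter fun i => ∃ j < k, sel j i ≠ 0).card

theorem wt_le_us {M : ℕ} (sel : ℕ → Fin M → ZMod 2) (k : ℕ) (T : Fin M → ZMod 2) :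
    wt T ≤ us sel k + nw sel k T := by
  classical
  unfold wt us nw
  refine le_trans (card_le_card ?_) (card_union_le _ _)
  intro i hi
  simp only [mem_filter, mem_univ, true_and, mem_union] at hi ⊢
  by_cases h : ∃ j < k, sel j i ≠ 0
  · exact Or.inl h
  · right
    push Not at h
    exact ⟨hi, h⟩

theorem nw_add_le {M : ℕ} (sel : ℕ → Fin M → ZMod 2) (k : ℕ) (T C : Fin M → ZMod 2) :
    nw sel k (T + C) ≤ nw sel k T + wt C := by
  classical
  unfold wt nw
  refine le_trans (card_le_card ?_) (card_union_le _ _)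
  intro i hi
  simp only [mem_filter, mem_univ, true_and, mem_union, Pi.add_apply] at hi ⊢
  by_cases h : T i = 0
  · right
    rw [h, zero_add] at hi
    exact hi.1
  · left
    exact ⟨h, hi.2⟩

theorem us_update {M : ℕ} (sel : ℕ → Fin M → ZMod 2) (k : ℕ) (T : Fin M → ZMod 2) :
    us (Function.update sel k T) (k + 1) ≤ us sel k + nw sel k T := by
  classical
  unfold us nw
  refine le_trans (card_le_card ?_) (card_union_le _ _)
  intro i hi
  simp only [mem_filter, mem_univ, true_and, mem_union] at hi ⊢
  obtain ⟨j, hj, hji⟩ := hi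
  by_cases h : ∃ j < k, sel j i ≠ 0
  · exact Or.inl h
  · right
    push Not at h
    refine ⟨?_, h⟩
    rcases Nat.lt_or_ge j k with h' | h'
    · rw [Function.update_of_ne (by omega)] at hji
      exact absurd (h j h') hji
    · have : j = k := by omega
      rw [this, Function.update_self] at hji
      exact hji

theorem nw_update {M : ℕ} (sel : ℕ → Fin M → ZMod 2) (k j : ℕ) (hj : j ≤ k)
    (T T' : Fin M → ZMod 2) : nw (Function.update sel k T) j T' = nw sel j T' := by
  classical
  unfold nw
  congr 1
  ext i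
  simp only [mem_filter, mem_univ, true_and]
  constructor
  · rintro ⟨h1, h2⟩
    refine ⟨h1, fun j' hj' => ?_⟩
    have := h2 j' hj'
    rwa [Function.update_of_ne (by omega)] at this
  · rintro ⟨h1, h2⟩
    refine ⟨h1, fun j' hj' => ?_⟩
    rw [Function.update_of_ne (by omega)]
    exact h2 j' hj'

/-- The walk lemma. -/
theorem walk_lemma {M n : ℕ} (A : (Fin M → ZMod 2) → (Fin n → ZMod 2))
    (hA : ∀ x y, A (x + y) = A x + A y) (s₀ ρ : ℕ) (hs₀ : 0 < s₀)
    (W : Submodule (ZMod 2) (Fin n → ZMod 2)) (Y : Set (Fin n → ZMod 2))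
    (hY : ∀ u ∈ Y, ∀ w ∈ W, u + w ∈ Y) (β : Fin M → ZMod 2)
    (hβ : ∀ C, wt C < s₀ → A C ∈ W → ∑ i, C i * β i = 0)
    (G2 : ∀ y, s₀ ≤ wt y → wt y ≤ 2 * (2 * s₀ * ρ) → A y ∉ W)
    (G3 : ∀ u₀ ∈ Y, ∀ sel : ℕ → Fin M → ZMod 2, (∀ j < ρ, wt (sel j) ≤ 2 * s₀ * ρ) →
      (∀ j < ρ, u₀ + A (sel j) ∈ Y) → ¬ ∀ j < ρ, s₀ ≤ nw sel j (sel j)) :
    ∃ h : (Fin n → ZMod 2) → ZMod 2, (∀ u, ∀ w ∈ W, h (u + w) = h u) ∧
      ∀ u C, wt C < s₀ → u ∈ Y → u + A C ∈ Y → h (u + A C) = h u + ∑ i, C i * β i := by
  classical
  have hA0 : A 0 = 0 := by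
    have := hA 0 0
    rw [add_zero] at this
    exact left_eq_add.1 this
  -- the bound of the weights
  have hbound : ∀ u v T, Walk A s₀ W Y u v T → wt T < 2 * s₀ * ρ := by
    intro u v T hw
    have hlt : ∀ (k : ℕ) (sel : ℕ → Fin M → ZMod 2), u ∈ Y →
        (∀ j < k, u + A (sel j) ∈ Y ∧ wt (sel j) ≤ 2 * s₀ * ρ ∧ s₀ ≤ nw sel j (sel j)) →
        k < ρ := by
      intro k sel hu h
      by_contra hcon
      push Not at hcon
      exact G3 u hu sel (fun j hj => (h j (by omega)).2.1) (fun j hj => (h j (by omega)).1)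
        fun j hj => (h j (by omega)).2.2
    have hinv : ∃ (k : ℕ) (sel : ℕ → Fin M → ZMod 2),
        (∀ j < k, u + A (sel j) ∈ Y ∧ wt (sel j) ≤ 2 * s₀ * ρ ∧ s₀ ≤ nw sel j (sel j)) ∧
        us sel k ≤ 2 * s₀ * k ∧ nw sel k T < s₀ := by
      induction hw with
      | refl hu =>
        refine ⟨0, fun _ => 0, fun j hj => absurd hj (Nat.not_lt_zero _), ?_, ?_⟩
        · unfold us
          simp
        · unfold nw
          simpa using hs₀
      | step v v' T C h hv hC hW ih =>
        obtain ⟨k, sel, h1, h2, h3⟩ := ih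
        have hk := hlt k sel h.mem.1 h1
        have h4 := nw_add_le sel k T C
        by_cases h5 : nw sel k (T + C) < s₀
        · exact ⟨k, sel, h1, h2, h5⟩
        push Not at h5
        have h6 := wt_le_us sel k (T + C)
        have h7 : 2 * s₀ * (k + 1) ≤ 2 * s₀ * ρ := Nat.mul_le_mul_left _ hk
        have h8 : 2 * s₀ * (k + 1) = 2 * s₀ * k + 2 * s₀ := by ring
        have hstep := Walk.step _ _ _ _ _ h hv hC hW
        have h9 := hstep.diff hA hA0
        have h10 : u + A (T + C) ∈ Y := by
          have := hY v' hv _ h9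
          have e : v' + (v' + u + A (T + C)) = u + A (T + C) + (v' + v') := by abel
          rw [e, add_self, add_zero] at this
          exact this
        refine ⟨k + 1, Function.update sel k (T + C), fun j hj => ?_, ?_, ?_⟩
        · rw [nw_update sel k j (by omega)]
          rcases Nat.lt_or_ge j k with h' | h'
          · rw [Function.update_of_ne (by omega)]
            exact h1 j h'
          · have hjk : j = k := by omega
            rw [hjk, Function.update_self]
            exact ⟨h10, by omega, h5⟩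
        · have := us_update sel k (T + C)
          omega
        · have : nw (Function.update sel k (T + C)) (k + 1) (T + C) = 0 := by
            unfold nw
            rw [card_eq_zero, filter_eq_empty_iff]
            intro i _ hi
            have := hi.2 k (by omega)
            rw [Function.update_self] at this
            exact hi.1 this
          omega
    obtain ⟨k, sel, h1, h2, h3⟩ := hinv
    have hk := hlt k sel hw.mem.1 h1
    have h4 := wt_le_us sel k T
    have h7 : 2 * s₀ * (k + 1) ≤ 2 * s₀ * ρ := Nat.mul_le_mul_left _ hk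
    have h8 : 2 * s₀ * (k + 1) = 2 * s₀ * k + 2 * s₀ := by ring
    omega
  -- uniqueness
  have huniq : ∀ u v v' T T', Walk A s₀ W Y u v T → Walk A s₀ W Y u v' T' → v + v' ∈ W →
      ∑ i, T i * β i = ∑ i, T' i * β i := by
    intro u v v' T T' h h' hvv
    have h1 := hbound _ _ _ h
    have h2 := hbound _ _ _ h'
    have h3 := wt_add_le T T'
    have h4 : A (T + T') ∈ W := by
      have h5 := W.add_mem (W.add_mem (h.diff hA hA0) (h'.diff hA hA0)) hvv
      have e : v + u + A T + (v' + u + A T') + (v + v') =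
          A (T + T') + (v + v) + (u + u) + (v' + v') := by
        rw [hA]
        abel
      rw [e, add_self, add_self, add_self, add_zero, add_zero, add_zero] at h5
      exact h5
    have h5 : wt (T + T') < s₀ := by
      by_contra hcon
      push Not at hcon
      exact G2 _ hcon (by omega) h4
    have h6 := hβ _ h5 h4
    simp only [Pi.add_apply, add_mul, sum_add_distrib] at h6
    have h7 : ∀ a b : ZMod 2, a + b = 0 → a = b := by decide
    exact h7 _ _ h6
  -- the relation
  let S : Setoid (Fin n → ZMod 2) :=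
    { r := fun u v => u = v ∨ ∃ T, Walk A s₀ W Y u v T
      iseqv :=
        { refl := fun u => Or.inl rfl
          symm := by
            rintro u v (h | ⟨T, h⟩)
            · exact Or.inl h.symm
            · exact Or.inr ⟨T, h.symm⟩
          trans := by
            rintro u v x (rfl | ⟨T, h⟩) (rfl | ⟨T', h'⟩)
            · exact Or.inl rfl
            · exact Or.inr ⟨T', h'⟩
            · exact Or.inr ⟨T, h⟩
            · exact Or.inr ⟨T + T', h.trans h'⟩ } }
  let rep : (Fin n → ZMod 2) → (Fin n → ZMod 2) := fun u => (Quotient.mk S u).out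
  have hrep : ∀ u ∈ Y, ∃ T, Walk A s₀ W Y (rep u) u T := by
    intro u hu
    have h1 : S.r (rep u) u := Quotient.mk_out (s := S) u
    rcases h1 with h | h
    · rw [h]
      exact ⟨0, Walk.refl u hu⟩
    · exact h
  have hrepeq : ∀ u v T, Walk A s₀ W Y u v T → rep u = rep v := by
    intro u v T h
    have h1 : Quotient.mk S u = Quotient.mk S v := Quotient.sound (s := S) (Or.inr ⟨T, h⟩)
    show (Quotient.mk S u).out = (Quotient.mk S v).out
    rw [h1]
  choose! tt htt using hrep
  refine ⟨fun u => if u ∈ Y then ∑ i, tt u i * β i else 0, fun u w hw => ?_,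
    fun u C hC hu hu' => ?_⟩
  · by_cases hu : u ∈ Y
    · have hu' := hY u hu w hw
      have h1 : Walk A s₀ W Y u (u + w) 0 := Walk.one hu hu' (by simpa [wt] using hs₀) (by
        have e : u + w + u + A 0 = w + (u + u) := by
          rw [hA0]
          abel
        rw [e, add_self, add_zero]
        exact hw)
      have h2 := htt u hu
      have h3 := htt (u + w) hu'
      rw [← hrepeq _ _ _ h1] at h3
      show (if u + w ∈ Y then _ else _) = (if u ∈ Y then _ else _)
      rw [if_pos hu, if_pos hu']
      refine huniq _ _ _ _ _ h3 h2 ?_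
      have e : u + w + u = w + (u + u) := by abel
      rw [e, add_self, add_zero]
      exact hw
    · have hu' : u + w ∉ Y := by
        intro h
        have := hY _ h w hw
        rw [add_assoc, add_self, add_zero] at this
        exact hu this
      show (if u + w ∈ Y then _ else _) = (if u ∈ Y then _ else _)
      rw [if_neg hu, if_neg hu']
  · have h1 : Walk A s₀ W Y u (u + A C) C := Walk.one hu hu' hC (by
      have e : u + A C + u + A C = (u + u) + (A C + A C) := by abel
      rw [e, add_self, add_self, add_zero]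
      exact W.zero_mem)
    have h2 := (htt u hu).trans h1
    have h3 := htt (u + A C) hu'
    rw [← hrepeq _ _ _ h1] at h3
    have h4 := huniq _ _ _ _ _ h3 h2 (by
      rw [add_self]
      exact W.zero_mem)
    show (if u + A C ∈ Y then _ else _) = (if u ∈ Y then _ else _) + _
    rw [if_pos hu, if_pos hu', h4]
    simp only [Pi.add_apply, add_mul, sum_add_distrib]

end Pool.Agent.H42.LA
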