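import Pool.Agent.H97.LA.Targets
import Pool.Agent.H42.LA.Walk

/-!
MP_c62aed_lc, board la_modules, row WLK: the signs.
-/

set_option autoImplicit false

namespace Pool.Agent.H42.LA

open Finset Pool.Agent.H60.SYM Pool.Agent.H42.XS Pool.Agent.H97.LA

theorem sg_add (a b : ZMod 2) : sg (a + b) = sg a * sg b := by
  unfold sg
  revert a b
  decide

theorem sg_cases (a : ZMod 2) : sg a = 1 ∨ sg a = -1 := by
  unfold sg
  split_ifs
  · exact Or.inl rfl
  · exact Or.inr rfl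

theorem nw_eq {m ρ : ℕ} (sel : ℕ → Fin m → ZMod 2) (j : Fin ρ) :
    Pool.Agent.H97.LA.nw (fun j : Fin ρ => sel j) j = Pool.Agent.H42.LA.nw sel j (sel j) := by
  classical
  unfold Pool.Agent.H97.LA.nw Pool.Agent.H42.LA.nw
  congr 1
  ext x
  simp only [mem_filter, mem_univ, true_and]
  constructor
  · rintro ⟨h1, h2⟩
    exact ⟨h1, fun j' hj' => h2 ⟨j', hj'.trans j.2⟩ hj'⟩
  · rintro ⟨h1, h2⟩
    exact ⟨h1, fun j' hj' => h2 j' hj'⟩

theorem pf_WLK : T_WLK := by
  intro n m At Wp Y s₀ ρ R δ hA _ hs₀ hR hY hG hδ hT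
  obtain ⟨h, h1, h2⟩ := walk_lemma At hA s₀ ρ hs₀ Wp Y hY δ
    (fun C hC hW => hδ C hC hW)
    (fun y hy1 hy2 hW => by
      have := hG y hW (by omega)
      omega)
    (fun u₀ hu₀ sel hw hm hall => by
      obtain ⟨j, hj⟩ := hT u₀ hu₀ (fun j : Fin ρ => sel j)
        (fun j => (hw j j.2).trans hR) (fun j => hm j j.2)
      rw [nw_eq] at hj
      have := hall j j.2
      omega)
  refine ⟨fun u => sg (h u), fun u => sg_cases _, fun u v hv => ?_, fun u c hu hu' hc => ?_⟩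
  · show sg (h (u + v)) = sg (h u)
    rw [h1 u v hv]
  · show sg (h (u + At c)) = sg (pair c δ) * sg (h u)
    rw [h2 u c hc hu hu', sg_add, mul_comm]
    rfl

end Pool.Agent.H42.LA
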